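import Pool.Agent.D0H11.GF.StmB

/-! # Project GF (helper11): the engine -/

set_option autoImplicit false

namespace Pool.Agent.D0H11.GF

open Finset MeasureTheory Filter

theorem ct_meas (c : ℕ → ℝ) : Measurable (ct c) := by
  unfold ct
  refine Measurable.ite measurableSet_Ici ?_ measurable_const
  exact ((measurable_of_countable c).comp Nat.measurable_floor).sub_const 1

theorem ct_bd (c : ℕ → ℝ) (E : ℕ) (hg : Gr E c) (y Y : ℝ) (hy : y ≤ Y) (hY : 0 ≤ Y) :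
    |ct c y| ≤ Real.log (Y + 3) ^ E + 1 := by
  have h0 : 0 ≤ Real.log (Y + 3) := Real.log_nonneg (by linarith)
  unfold ct
  split_ifs with h
  · have h1 := hg ⌊y⌋₊
    have h2 : Real.log ((⌊y⌋₊ : ℝ) + 3) ≤ Real.log (Y + 3) := by
      apply Real.log_le_log (by positivity)
      have := Nat.floor_le h
      linarith
    have h3 : 0 ≤ Real.log ((⌊y⌋₊ : ℝ) + 3) := Real.log_nonneg (by
      have : (0 : ℝ) ≤ (⌊y⌋₊ : ℝ) := by positivity
      linarith)
    have h4 : Real.log ((⌊y⌋₊ : ℝ) + 3) ^ E ≤ Real.log (Y + 3) ^ E := pow_le_pow_left₀ h3 h2 E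
    calc |c ⌊y⌋₊ - 1| ≤ |c ⌊y⌋₊| + |(1 : ℝ)| := abs_sub _ _
      _ ≤ _ := by
        rw [abs_one]
        linarith
  · rw [abs_zero]
    positivity

theorem Sm_meas {d : ℕ} {ι : Type} (X : Fam d ι) (c : ℕ → ℝ) (n : ℕ) : Measurable (Sm X c n) := by
  unfold Sm
  refine Finset.measurable_sum _ fun x _ => ?_
  refine Measurable.const_mul ?_ _
  refine (ct_meas c).comp ?_
  refine Measurable.const_add ?_ _
  refine Finset.measurable_sum _ fun k _ => ?_
  exact (measurable_pi_apply k).mul_const _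

theorem Sm_bd {d : ℕ} {ι : Type} (X : Fam d ι) (c : ℕ → ℝ) (E : ℕ) (hg : Gr E c) (n K : ℕ) :
    ∃ M : ℝ, ∀ b ∈ bx d K, |Sm X c n b| ≤ M := by
  refine ⟨∑ x ∈ X.R n, |X.w n x| * (Real.log ((|X.g n x| + ∑ k, K * |X.v n x k|) + 3) ^ E + 1), fun b hb => ?_⟩
  unfold Sm
  refine (Finset.abs_sum_le_sum_abs _ _).trans ?_
  refine Finset.sum_le_sum fun x _ => ?_
  rw [abs_mul]
  refine mul_le_mul_of_nonneg_left ?_ (abs_nonneg _)
  apply ct_bd c E hg
  · refine add_le_add (le_abs_self _) (Finset.sum_le_sum fun k _ => ?_)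
    refine (le_abs_self _).trans ?_
    rw [abs_mul]
    refine mul_le_mul_of_nonneg_right ?_ (abs_nonneg _)
    rw [abs_le]
    exact ⟨hb.1 k, hb.2 k⟩
  · positivity

open Classical in
/-- **Engine.** -/
theorem eng (hL2 : S_L2) (hBC : S_BC) {d : ℕ} {ι : Type} (X : Fam d ι) (E : ℕ) (hX : Ok X E) (c : ℕ → ℝ)
    (hc : Mean1 c) (hg : Gr E c) : ∀ᵐ b : Fin d → ℝ, ∀ A : ℕ, ∀ᶠ N : ℕ in atTop,
    ((((Icc 1 N).filter fun n => (N : ℝ) / Real.log N ^ A < |Sm X c n b|).card : ℕ) : ℝ) ≤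
      (N : ℝ) / Real.log N ^ A :=
  hBC d (Sm X c) (Sm_meas X c) (fun n K => Sm_bd X c E hg n K) fun K A hK => hL2 d ι X E hX c hc hg K A hK

end Pool.Agent.D0H11.GF
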