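import Pool.Agent.D0H11.GF.Two

/-! # Project GF (helper11): two generic forms, the final statement -/

set_option autoImplicit false

namespace Pool.Agent.D0H11.GF

open Finset MeasureTheory Filter

open Classical in
theorem det_two (hR : S_RLOW) (a b : Fin 4 → ℝ) (ha : ∀ i, 0 < a i) (B : ℕ) (hB : 1 ≤ B)
    (h1 : ∀ A : ℕ, ∀ᶠ N : ℕ in atTop, ((((Icc 1 N).filter fun n => (N : ℝ) / Real.log N ^ A <
        |∑ x ∈ sph n, (1 : ℝ) * ct th (0 + tau 0 n * qd a x)|).card : ℕ) : ℝ) ≤ (N : ℝ) / Real.log N ^ A)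
    (h2 : ∀ A : ℕ, ∀ᶠ N : ℕ in atTop, ((((Icc 1 N).filter fun n => (N : ℝ) / Real.log N ^ A <
        |∑ x ∈ sph n, th (p1 a x) * ct th (p1 a x + tau B n * qd b x)|).card : ℕ) : ℝ) ≤ (N : ℝ) / Real.log N ^ A)
    (A : ℕ) (ε : ℝ) (hε : 0 < ε) (hε1 : ε ≤ 1) : ∀ᶠ N : ℕ in atTop,
    ((((Icc 1 N).filter fun n => Odd n ∧ ¬ |C2 a b B n * Real.log n ^ 2 - (sph n).card| ≤
      ε * (sph n).card).card : ℕ) : ℝ) ≤ (N : ℝ) / Real.log N ^ A := by
  obtain ⟨n₀, hn3, h0⟩ := pointwise a b ha B hB ε hε hε1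
  obtain ⟨A', hA'⟩ := hR (A + 1)
  have hlog : Tendsto (fun n : ℕ => Real.log (n : ℝ)) atTop atTop :=
    Real.tendsto_log_atTop.comp tendsto_natCast_atTop_atTop
  have hlit : Tendsto (fun n : ℕ => (n : ℝ) / Real.log n ^ (A + 1)) atTop atTop := by
    have h3 := (isLittleO_log_rpow_atTop (r := 1 / (2 * ((A : ℝ) + 1))) (by positivity))
    have h4 : Tendsto (fun x : ℝ => x / Real.log x ^ (A + 1)) atTop atTop := by
      have h5 : Tendsto (fun x : ℝ => x ^ (1 / 2 : ℝ)) atTop atTop := tendsto_rpow_atTop (by norm_num)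
      refine tendsto_atTop_mono' _ ?_ h5
      filter_upwards [h3.bound one_pos, eventually_gt_atTop 1, Real.tendsto_log_atTop.eventually_gt_atTop 0] with
        x hx hx1 hxl
      have hx0 : 0 < x := by linarith
      rw [one_mul, Real.norm_of_nonneg hxl.le, Real.norm_of_nonneg (by positivity)] at hx
      rw [le_div_iff₀ (by positivity)]
      have h6 : Real.log x ^ (A + 1) ≤ x ^ (1 / 2 : ℝ) := by
        calc Real.log x ^ (A + 1) ≤ (x ^ (1 / (2 * ((A : ℝ) + 1)))) ^ (A + 1) := pow_le_pow_left₀ hxl.le hx _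
          _ = x ^ (1 / 2 : ℝ) := by
            rw [← Real.rpow_natCast, ← Real.rpow_mul hx0.le]
            congr 1
            push_cast
            field_simp
      calc x ^ (1 / 2 : ℝ) * Real.log x ^ (A + 1) ≤ x ^ (1 / 2 : ℝ) * x ^ (1 / 2 : ℝ) :=
            mul_le_mul_of_nonneg_left h6 (by positivity)
        _ = x := by
          rw [← Real.rpow_add hx0]
          norm_num
    exact h4.comp tendsto_natCast_atTop_atTop
  filter_upwards [h1 (A + A' + 3), h2 (A + A' + 3), hA', hlog.eventually_ge_atTop (8 / ε + 4),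
    hlit.eventually_ge_atTop (n₀ : ℝ), eventually_ge_atTop 3] with N k1 k2 k3 hL hn0 hN3
  obtain ⟨L, hLd⟩ : ∃ L, L = Real.log (N : ℝ) := ⟨_, rfl⟩
  rw [← hLd] at k1 k2 k3 hL hn0 ⊢
  have hN0 : (0 : ℝ) < N := by
    have : 0 < N := by omega
    exact_mod_cast this
  have h8 : 0 < 8 / ε := by positivity
  have hL4 : 4 ≤ L := by linarith
  have hL1 : 1 ≤ L := by linarith
  have hL0 : 0 < L := by linarith
  have hLε : 8 ≤ ε * L := by
    have : 8 / ε ≤ L := by linarith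
    rw [div_le_iff₀ hε] at this
    linarith
  obtain ⟨X1, hX1⟩ : ∃ X, X = (Icc 1 N).filter fun n => (N : ℝ) / L ^ (A + A' + 3) <
    |∑ x ∈ sph n, (1 : ℝ) * ct th (0 + tau 0 n * qd a x)| := ⟨_, rfl⟩
  obtain ⟨X2, hX2⟩ : ∃ X, X = (Icc 1 N).filter fun n => (N : ℝ) / L ^ (A + A' + 3) <
    |∑ x ∈ sph n, th (p1 a x) * ct th (p1 a x + tau B n * qd b x)| := ⟨_, rfl⟩
  obtain ⟨X3, hX3⟩ : ∃ X, X = (Icc 1 N).filter fun n => Odd n ∧ ((sph n).card : ℝ) < (N : ℝ) / L ^ A' := ⟨_, rfl⟩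
  obtain ⟨T, hT⟩ : ∃ T, T = (Icc 1 N).filter fun n => Odd n ∧ ¬ |C2 a b B n * Real.log n ^ 2 - (sph n).card| ≤
      ε * (sph n).card := ⟨_, rfl⟩
  rw [← hX1] at k1
  rw [← hX2] at k2
  rw [← hX3] at k3
  rw [← hT]
  have hsub : T ⊆ X1 ∪ X2 ∪ X3 ∪ Finset.range n₀ := by
    intro n hn
    by_contra hcon
    simp only [mem_union, not_or] at hcon
    obtain ⟨⟨⟨c1, c2⟩, c3⟩, c4⟩ := hcon
    rw [mem_range, not_lt] at c4
    rw [hT, mem_filter] at hn
    obtain ⟨hnI, hodd, hbad⟩ := hn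
    rw [hX1, mem_filter, not_and, not_lt] at c1
    rw [hX2, mem_filter, not_and, not_lt] at c2
    rw [hX3, mem_filter, not_and, not_and, not_lt] at c3
    apply hbad
    refine h0 n c4 _ (c1 hnI) (c2 hnI) ?_
    have c5 := c3 hnI hodd
    have e1 : 8 * ((N : ℝ) / L ^ (A + A' + 3)) ≤ ε * (N / L ^ A') := by
      have e2 : L ^ (A + A' + 3) = L ^ A' * (L * L ^ (A + 2)) := by ring
      rw [e2]
      have e3 : (1 : ℝ) ≤ L ^ (A + 2) := one_le_pow₀ hL1
      have e4 : 8 ≤ ε * (L * L ^ (A + 2)) := by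
        calc (8 : ℝ) ≤ ε * L := hLε
          _ = ε * L * 1 := (mul_one _).symm
          _ ≤ ε * L * L ^ (A + 2) := mul_le_mul_of_nonneg_left e3 (by positivity)
          _ = ε * (L * L ^ (A + 2)) := by ring
      have e5 : 8 * ((N : ℝ) / (L ^ A' * (L * L ^ (A + 2)))) = (N / L ^ A') * (8 / (L * L ^ (A + 2))) := by
        field_simp
      rw [e5, mul_comm ε]
      refine mul_le_mul_of_nonneg_left ?_ (by positivity)
      rw [div_le_iff₀ (by positivity)]
      exact e4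
    exact e1.trans (mul_le_mul_of_nonneg_left c5 hε.le)
  have hcard : (T.card : ℝ) ≤ X1.card + X2.card + X3.card + n₀ := by
    have g1 := Finset.card_le_card hsub
    have g2 := Finset.card_union_le (X1 ∪ X2 ∪ X3) (Finset.range n₀)
    have g3 := Finset.card_union_le (X1 ∪ X2) X3
    have g4 := Finset.card_union_le X1 X2
    rw [Finset.card_range] at g2
    have : T.card ≤ X1.card + X2.card + X3.card + n₀ := by omega
    exact_mod_cast this
  have hpw : (N : ℝ) / L ^ (A + A' + 3) ≤ N / L ^ (A + 1) := by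
    apply div_le_div_of_nonneg_left hN0.le (by positivity)
    exact pow_le_pow_right₀ hL1 (by omega)
  have hfin : 4 * ((N : ℝ) / L ^ (A + 1)) ≤ N / L ^ A := by
    rw [pow_succ]
    have : 4 * ((N : ℝ) / (L ^ A * L)) = (N / L ^ A) * (4 / L) := by field_simp
    rw [this]
    calc (N : ℝ) / L ^ A * (4 / L) ≤ N / L ^ A * 1 := by
          refine mul_le_mul_of_nonneg_left ?_ (by positivity)
          rw [div_le_one hL0]
          exact hL4
      _ = _ := mul_one _
  linarith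

open Classical in
/-- **Two generic forms.** -/
theorem two (hL2 : S_L2) (hBC : S_BC) (hOK : S_OK4) (hR : S_RLOW) :
    ∀ᵐ a : Fin 4 → ℝ, (∀ i, 0 < a i) → ∀ᵐ b : Fin 4 → ℝ, ∀ B : ℕ, 1 ≤ B → ∀ A : ℕ, ∀ ε : ℝ, 0 < ε →
      ∀ᶠ N : ℕ in atTop, ((((Icc 1 N).filter fun n => Odd n ∧ ¬ |C2 a b B n * Real.log n ^ 2 - (sph n).card| ≤
        ε * (sph n).card).card : ℕ) : ℝ) ≤ (N : ℝ) / Real.log N ^ A := by
  have h1 := eng4 hL2 hBC hOK 0 0 (fun _ _ => 0) (fun _ _ => 1) (fun n x _ => by simp) (fun n x _ => by simp)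
  filter_upwards [h1] with a h1a ha
  obtain ⟨V, hV⟩ : ∃ V : ℝ, V = ∑ i, |a i| := ⟨_, rfl⟩
  have hV0 : 0 ≤ V := by
    rw [hV]
    exact Finset.sum_nonneg fun i _ => abs_nonneg _
  have hlog3 : 1 < Real.log 3 := by
    rw [Real.lt_log_iff_exp_lt (by norm_num)]
    have := Real.exp_one_lt_d9
    linarith
  obtain ⟨E₁, hE₁⟩ := pow_unbounded_of_one_lt (1 + Real.log (V + 1)) hlog3
  obtain ⟨E₂, hE₂⟩ := exists_nat_ge V
  obtain ⟨E, hE⟩ : ∃ E, E = E₁ + 1 + E₂ := ⟨_, rfl⟩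
  have hqa : ∀ n, ∀ x ∈ sph n, (p1 a x : ℝ) ≤ V * n := by
    intro n x hx
    have h3 := qd_abs hx a
    rw [← hV] at h3
    have h4 : 0 ≤ qd a x := by
      have := qd_ge hx a 0 (fun i => (ha i).le)
      linarith
    exact (Nat.floor_le h4).trans ((le_abs_self _).trans h3)
  rw [ae_all_iff]
  intro B
  have h2 := eng4 hL2 hBC hOK B E (fun _ x => (p1 a x : ℝ)) (fun _ x => th (p1 a x)) (fun n x hx => by
      rw [abs_of_nonneg (by positivity)]
      refine (hqa n x hx).trans (mul_le_mul_of_nonneg_right ?_ (by positivity))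
      refine hE₂.trans ?_
      rw [hE]
      push_cast
      linarith [(by positivity : (0 : ℝ) ≤ E₁)]) (fun n x hx => by
      rw [abs_of_nonneg (th_nonneg _)]
      have h3 : th (p1 a x) ≤ Real.log ((V + 1) * (n + 3)) := by
        have hn : (0 : ℝ) ≤ n := by positivity
        apply th_le
        · refine (hqa n x hx).trans ?_
          nlinarith
        · nlinarith
      have hn3 : (0 : ℝ) < (n : ℝ) + 3 := by positivity
      have h4 : Real.log 3 ≤ Real.log ((n : ℝ) + 3) := by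
        apply Real.log_le_log (by norm_num)
        have : (0 : ℝ) ≤ n := by positivity
        linarith
      obtain ⟨l, hl⟩ : ∃ l, l = Real.log ((n : ℝ) + 3) := ⟨_, rfl⟩
      rw [Real.log_mul (by positivity) hn3.ne', ← hl] at h3
      rw [← hl] at h4 ⊢
      have hl1 : 1 ≤ l := by linarith
      have h5 : 1 + Real.log (V + 1) ≤ l ^ E₁ := hE₁.le.trans (pow_le_pow_left₀ (by linarith) h4 _)
      have h6 : 0 ≤ Real.log (V + 1) := Real.log_nonneg (by linarith)
      calc th (p1 a x) ≤ Real.log (V + 1) + l := h3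
        _ ≤ (1 + Real.log (V + 1)) * l := by nlinarith
        _ ≤ l ^ E₁ * l := mul_le_mul_of_nonneg_right h5 (by linarith)
        _ = l ^ (E₁ + 1) := (pow_succ _ _).symm
        _ ≤ l ^ E := pow_le_pow_right₀ hl1 (by omega))
  filter_upwards [h2] with b h2b hB A ε hε
  have h3 := det_two hR a b ha B hB h1a h2b A (min ε 1) (lt_min hε one_pos) (min_le_right _ _)
  filter_upwards [h3] with N hN
  refine le_trans ?_ hN
  have : ((Icc 1 N).filter fun n => Odd n ∧ ¬ |C2 a b B n * Real.log n ^ 2 - (sph n).card| ≤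
        ε * (sph n).card).card ≤ ((Icc 1 N).filter fun n => Odd n ∧
          ¬ |C2 a b B n * Real.log n ^ 2 - (sph n).card| ≤ min ε 1 * (sph n).card).card := by
    apply Finset.card_le_card
    intro n hn
    rw [mem_filter] at hn ⊢
    refine ⟨hn.1, hn.2.1, fun h => hn.2.2 (h.trans ?_)⟩
    exact mul_le_mul_of_nonneg_right (min_le_left _ _) (by positivity)
  exact_mod_cast this

end Pool.Agent.D0H11.GF
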