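import Pool.Agent.D0H11.GF.Eng
import Pool.Agent.D0H91.UB.Ipw

/-! # Project GF (helper11): four squares, the second prime -/

set_option autoImplicit false

namespace Pool.Agent.D0H11.GF

open Finset MeasureTheory Filter

/-- the weight `log p` of the primes -/
noncomputable def th (m : ℕ) : ℝ := if m.Prime then Real.log m else 0

theorem th_eq : th = Pool.Agent.D0H91.UB.WP 0 := by
  funext m
  simp [th, Pool.Agent.D0H91.UB.WP]

theorem mean1_th : Mean1 th := by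
  rw [th_eq]
  exact Pool.Agent.D0H91.UB.wp0

theorem th_nonneg (m : ℕ) : 0 ≤ th m := by
  unfold th
  split_ifs
  · exact Real.log_natCast_nonneg m
  · exact le_rfl

theorem th_le (m : ℕ) (Y : ℝ) (hm : (m : ℝ) ≤ Y) (hY : 1 ≤ Y) : th m ≤ Real.log Y := by
  unfold th
  split_ifs with h
  · exact Real.log_le_log (by exact_mod_cast h.pos) hm
  · exact Real.log_nonneg hY

theorem one_le_log3 (m : ℕ) : 1 ≤ Real.log ((m : ℝ) + 3) := by
  rw [Real.le_log_iff_exp_le (by positivity)]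
  have := Real.exp_one_lt_d9
  have h : (0 : ℝ) ≤ m := by positivity
  linarith

theorem gr_th (E : ℕ) (hE : 1 ≤ E) : Gr E th := by
  intro m
  rw [abs_of_nonneg (th_nonneg m)]
  have h1 : th m ≤ Real.log ((m : ℝ) + 3) := th_le m _ (by linarith) (by
    have h : (0 : ℝ) ≤ m := by positivity
    linarith)
  refine h1.trans ?_
  calc Real.log ((m : ℝ) + 3) = Real.log ((m : ℝ) + 3) ^ 1 := (pow_one _).symm
    _ ≤ Real.log ((m : ℝ) + 3) ^ E := pow_le_pow_right₀ (one_le_log3 m) hE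

/-- the real quadratic form with the coefficients `b` -/
noncomputable def qd (b : Fin 4 → ℝ) (x : Fin 4 → ℤ) : ℝ := ∑ i, b i * (x i : ℝ) ^ 2

/-- the form of the problem -/
def pf (x : Fin 4 → ℤ) : ℤ := x 0 ^ 2 + 3 * x 1 ^ 2 + 5 * x 2 ^ 2 + 7 * x 3 ^ 2

theorem mem_sph (n : ℕ) (x : Fin 4 → ℤ) : x ∈ sph n ↔ ∑ i, x i ^ 2 = (n : ℤ) := by
  unfold sph
  rw [mem_filter, Fintype.mem_piFinset]
  constructor
  · exact fun h => h.2
  · intro h
    refine ⟨fun i => ?_, h⟩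
    have h1 : x i ^ 2 ≤ (n : ℤ) := by
      rw [← h]
      exact Finset.single_le_sum (f := fun i => x i ^ 2) (fun j _ => sq_nonneg (x j)) (Finset.mem_univ i)
    rw [mem_Icc]
    constructor <;> nlinarith [sq_nonneg (x i), sq_nonneg (x i + 1), sq_nonneg (x i - 1)]

theorem sum_sq {n : ℕ} {x : Fin 4 → ℤ} (h : x ∈ sph n) :
    x 0 ^ 2 + x 1 ^ 2 + x 2 ^ 2 + x 3 ^ 2 = (n : ℤ) := by
  rw [mem_sph, Fin.sum_univ_four] at h
  exact h

theorem pf_ge {n : ℕ} {x : Fin 4 → ℤ} (h : x ∈ sph n) : (n : ℤ) ≤ pf x := by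
  have := sum_sq h
  unfold pf
  nlinarith [sq_nonneg (x 0), sq_nonneg (x 1), sq_nonneg (x 2), sq_nonneg (x 3)]

theorem pf_le {n : ℕ} {x : Fin 4 → ℤ} (h : x ∈ sph n) : pf x ≤ 7 * n := by
  have := sum_sq h
  unfold pf
  nlinarith [sq_nonneg (x 0), sq_nonneg (x 1), sq_nonneg (x 2), sq_nonneg (x 3)]

theorem sq_le {n : ℕ} {x : Fin 4 → ℤ} (h : x ∈ sph n) (i : Fin 4) : (x i : ℝ) ^ 2 ≤ n := by
  rw [mem_sph] at h
  have h1 : x i ^ 2 ≤ (n : ℤ) := by
    rw [← h]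
    exact Finset.single_le_sum (f := fun i => x i ^ 2) (fun j _ => sq_nonneg (x j)) (Finset.mem_univ i)
  exact_mod_cast h1

theorem qd_abs {n : ℕ} {x : Fin 4 → ℤ} (h : x ∈ sph n) (b : Fin 4 → ℝ) : |qd b x| ≤ (∑ i, |b i|) * n := by
  unfold qd
  refine (Finset.abs_sum_le_sum_abs _ _).trans ?_
  rw [Finset.sum_mul]
  refine Finset.sum_le_sum fun i _ => ?_
  rw [abs_mul, abs_of_nonneg (sq_nonneg (x i : ℝ))]
  exact mul_le_mul_of_nonneg_left (sq_le h i) (abs_nonneg _)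

/-- the factor `1 / log ^ B n` -/
noncomputable def tau (B n : ℕ) : ℝ := if 3 ≤ n then 1 / Real.log n ^ B else 0

theorem one_le_log {n : ℕ} (hn : 3 ≤ n) : 1 ≤ Real.log n := by
  obtain ⟨m, rfl⟩ : ∃ m, n = m + 3 := ⟨n - 3, by omega⟩
  have := one_le_log3 m
  push_cast
  exact this

theorem tau_nonneg (B n : ℕ) : 0 ≤ tau B n := by
  unfold tau
  split_ifs with h
  · have := one_le_log h
    positivity
  · exact le_rfl

theorem tau_le (B n : ℕ) : tau B n ≤ 1 := by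
  unfold tau
  split_ifs with h
  · have h1 := one_le_log h
    have h2 : 1 ≤ Real.log n ^ B := one_le_pow₀ h1
    rw [div_le_one (by positivity)]
    exact h2
  · norm_num

open Classical in
/-- the engine for four squares, with the factor `1 / log ^ B n` -/
theorem eng4 (hL2 : S_L2) (hBC : S_BC) (hOK : S_OK4) (B E : ℕ) (g w : ℕ → (Fin 4 → ℤ) → ℝ)
    (hg : ∀ n, ∀ x ∈ sph n, |g n x| ≤ E * n) (hw : ∀ n, ∀ x ∈ sph n, |w n x| ≤ Real.log (n + 3) ^ E) :
    ∀ᵐ b : Fin 4 → ℝ, ∀ A : ℕ, ∀ᶠ N : ℕ in atTop,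
      ((((Icc 1 N).filter fun n => (N : ℝ) / Real.log N ^ A <
        |∑ x ∈ sph n, w n x * ct th (g n x + tau B n * qd b x)|).card : ℕ) : ℝ) ≤ (N : ℝ) / Real.log N ^ A := by
  obtain ⟨E₀, hE₀⟩ := hOK B (tau B) (fun n => ⟨tau_nonneg B n, tau_le B n⟩) (fun n hn => by
    unfold tau
    rw [if_pos hn])
  obtain ⟨F, hF⟩ : ∃ F, F = max (max E₀ E) 1 := ⟨_, rfl⟩
  have hFE : E ≤ F := by omega
  have hF0 : E₀ ≤ F := by omega
  have hF1 : 1 ≤ F := by omega
  have hok := hE₀ F hF0 g w (fun n x hx => (hg n x hx).trans (mul_le_mul_of_nonneg_right (by exact_mod_cast hFE)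
    (by positivity))) (fun n x hx => (hw n x hx).trans (pow_le_pow_right₀ (one_le_log3 n) hFE))
  have h := eng hL2 hBC _ F hok th mean1_th (gr_th F hF1)
  filter_upwards [h] with b hb A
  filter_upwards [hb A] with N hN
  have e : ∀ n : ℕ, Sm (⟨sph, fun n x k => tau B n * (x k : ℝ) ^ 2, g, w⟩ : Fam 4 (Fin 4 → ℤ)) th n b =
      ∑ x ∈ sph n, w n x * ct th (g n x + tau B n * qd b x) := by
    intro n
    unfold Sm
    refine Finset.sum_congr rfl fun x _ => ?_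
    have e1 : ∑ k, b k * (tau B n * (x k : ℝ) ^ 2) = tau B n * qd b x := by
      unfold qd
      rw [Finset.mul_sum]
      refine Finset.sum_congr rfl fun k _ => ?_
      ring
    rw [← e1]
  simp only [e] at hN
  exact hN

end Pool.Agent.D0H11.GF
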