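import Pool.Agent.D0H11.GF.Tr
import Pool.Agent.D0H11.TW.Fin2

/-! # Project GF (helper11): the properties of the first prime -/

set_option autoImplicit false

namespace Pool.Agent.D0H11.GF

open Finset MeasureTheory Filter
open Pool.Agent.D0H11.TW (S_TRANS S_MAY S_CHN cnt RP Qf cc PP1 PP2 PP4)

theorem Qf_eq (v : Fin 4 → ℤ) : Qf v = pf v := by
  unfold Qf pf
  rw [Fin.sum_univ_four]
  simp [cc]

/-- `p` has the property `P` -/
def Pr (P : ℕ → Prop) (v : Fin 4 → ℤ) : Prop := ∃ p : ℕ, P p ∧ (p : ℤ) = pf v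

theorem RP_card (n : ℕ) (P : ℕ → Prop) [DecidablePred (Pr P)] : (RP n P).ncard = ((sph n).filter (Pr P)).card := by
  rw [Pool.Agent.D0H11.TW.RP_ncard, ← Set.ncard_coe_finset]
  congr 1
  ext v
  rw [Finset.coe_filter]
  simp only [Pr, Set.mem_ofPred_eq, mem_sph, Qf_eq]
  constructor
  · rintro ⟨h1, p, h2, h3⟩
    exact ⟨h1, p, h3, h2.symm⟩
  · rintro ⟨h1, p, h2, h3⟩
    exact ⟨h1, p, h3.symm, h2⟩

open Classical in
theorem cnt_Cn (N : ℕ) (P : ℕ → Prop) (x : ℝ) : cnt N P x = Cn (fun _ => Pr P) x N := by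
  unfold cnt Cn
  simp only [RP_card]

open Classical in
theorem Cn_mono (P Q : ℕ → (Fin 4 → ℤ) → Prop) (r : ℝ) (N : ℕ) (h : ∀ n, n ≤ N → ∀ x, P n x → Q n x) :
    Cn P r N ≤ Cn Q r N := by
  unfold Cn
  apply Finset.card_le_card
  intro n hn
  rw [mem_filter, mem_Icc] at hn ⊢
  refine ⟨hn.1, hn.2.1, hn.2.2.trans ?_⟩
  have : ((sph n).filter (P n)).card ≤ ((sph n).filter (Q n)).card := by
    apply Finset.card_le_card
    intro x hx
    rw [mem_filter] at hx ⊢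
    exact ⟨hx.1, h n hn.1.2 x hx.2⟩
  exact_mod_cast this

open Classical in
/-- many primes in `[N/2, N]` -/
theorem many_primes : ∀ᶠ N : ℕ in atTop, 1 / 4 * (N : ℝ) / Real.log N ^ 1 ≤
    ((((Icc 1 N).filter fun p => N ≤ 2 * p ∧ p.Prime).card : ℕ) : ℝ) := by
  obtain ⟨C, hC⟩ := mean1_th 1
  have hlog : Tendsto (fun n : ℕ => Real.log (n : ℝ)) atTop atTop :=
    Real.tendsto_log_atTop.comp tendsto_natCast_atTop_atTop
  filter_upwards [hlog.eventually_ge_atTop (16 * |C| + 2), eventually_ge_atTop 16] with N hL hN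
  obtain ⟨M, hM⟩ : ∃ M, M = (N - 1) / 2 := ⟨_, rfl⟩
  obtain ⟨L, hLd⟩ : ∃ L, L = Real.log (N : ℝ) := ⟨_, rfl⟩
  have hM2 : 2 ≤ M := by omega
  have hMN : 2 * M < N := by omega
  have hN0 : (0 : ℝ) < N := by
    have : 0 < N := by omega
    exact_mod_cast this
  have hMr : 2 * (M : ℝ) ≤ N := by exact_mod_cast hMN.le
  have hM0 : (0 : ℝ) < M := by
    have : 0 < M := by omega
    exact_mod_cast this
  have hMl : (N : ℝ) ≤ 2 * M + 2 := by
    have : N ≤ 2 * M + 2 := by omega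
    exact_mod_cast this
  have h1 := abs_le.1 (hC N (by omega))
  have h2 := abs_le.1 (hC M hM2)
  rw [pow_one] at h1 h2 ⊢
  rw [← hLd] at hL h1 ⊢
  have hC0 := abs_nonneg C
  have hL2 : 2 ≤ L := by linarith
  have hL0 : 0 < L := by linarith
  -- log M ≥ L / 2
  have hlM : L / 2 ≤ Real.log M := by
    have h3 : (N : ℝ) ≤ (M : ℝ) ^ 2 := by
      have h4 : N ≤ M ^ 2 := by
        have h5 : 7 ≤ M := by omega
        have h6 : N ≤ 2 * M + 2 := by omega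
        nlinarith
      exact_mod_cast h4
    have h4 := Real.log_le_log hN0 h3
    rw [Real.log_pow, ← hLd] at h4
    push_cast at h4
    linarith
  have e1 : C * N / L ≤ N / 16 := by
    rw [div_le_iff₀ hL0]
    have h3 : C ≤ |C| := le_abs_self C
    have h4 : 16 * |C| ≤ L := by linarith
    nlinarith
  have e2 : C * M / Real.log M ≤ N / 16 := by
    rw [div_le_iff₀ (by linarith)]
    have h3 : C ≤ |C| := le_abs_self C
    have h4 : 16 * |C| ≤ L := by linarith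
    have h5 : C * M ≤ |C| * M := mul_le_mul_of_nonneg_right h3 hM0.le
    have h6 : |C| * M ≤ L / 16 * (N / 2) := mul_le_mul (by linarith) (by linarith) hM0.le (by linarith)
    have h7 : (N : ℝ) / 16 * (L / 2) ≤ N / 16 * Real.log M := mul_le_mul_of_nonneg_left hlM (by positivity)
    linarith
  have h3 : (N : ℝ) / 4 ≤ ∑ m ∈ Icc 1 N, th m - ∑ m ∈ Icc 1 M, th m := by
    linarith [h1.1, h2.2]
  have h4 : ∑ m ∈ Icc 1 N, th m - ∑ m ∈ Icc 1 M, th m ≤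
      ((((Icc 1 N).filter fun p => N ≤ 2 * p ∧ p.Prime).card : ℕ) : ℝ) * L := by
    have h5 : ∑ m ∈ Icc 1 N, th m - ∑ m ∈ Icc 1 M, th m = ∑ m ∈ Icc 1 N \ Icc 1 M, th m := by
      rw [← Finset.sum_sdiff (Finset.Icc_subset_Icc_right (show M ≤ N by omega))]
      ring
    rw [h5, ← nsmul_eq_mul, ← Finset.sum_const, Finset.sum_filter]
    have h6 : Icc 1 N \ Icc 1 M ⊆ Icc 1 N := Finset.sdiff_subset
    refine le_trans ?_ (Finset.sum_le_sum_of_subset_of_nonneg h6 fun m _ _ => ?_)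
    · refine Finset.sum_le_sum fun m hm => ?_
      rw [Finset.mem_sdiff, mem_Icc, mem_Icc] at hm
      by_cases hp : m.Prime
      · rw [if_pos ⟨by omega, hp⟩, hLd]
        exact th_le m N (by exact_mod_cast hm.1.2) (by exact_mod_cast (by omega : 1 ≤ N))
      · have : ¬ (N ≤ 2 * m ∧ m.Prime) := fun h => hp h.2
        rw [if_neg this]
        unfold th
        rw [if_neg hp]
    · split_ifs
      · exact hL0.le
      · exact le_rfl
  rw [div_le_iff₀ hL0]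
  linarith

open Classical in
theorem base (hT : S_TRANS) : ∃ c : ℝ, 0 < c ∧ ∀ᶠ N : ℕ in atTop,
    c * N ≤ (cnt N Nat.Prime (c * N / Real.log N ^ 1) : ℝ) := by
  obtain ⟨c, hc, N0, h⟩ := hT {0} (1 / 4) (1 / 4) 2 (by simp) (by norm_num) (by norm_num) (by norm_num)
  refine ⟨c, hc, ?_⟩
  filter_upwards [many_primes, eventually_ge_atTop N0, eventually_ge_atTop 4] with N h1 hN hN4
  have h2 := h N hN ((Icc 1 N).filter fun p => N ≤ 2 * p ∧ p.Prime) (fun p hp => ?_) (by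
    rw [Finset.card_singleton]
    exact h1)
  · rw [Finset.card_singleton] at h2
    refine h2.trans ?_
    have h3 := Pool.Agent.D0H11.TW.cnt_ge N N le_rfl Nat.Prime ((Icc 1 N).filter fun p => N ≤ 2 * p ∧ p.Prime)
      (fun p hp => (mem_filter.1 hp).2.2) (c * N / Real.log N ^ 1) (c * N / Real.log N ^ 1) le_rfl
    exact_mod_cast h3
  · rw [mem_filter, mem_Icc] at hp
    refine ⟨hp.1.2, hp.2.1, hp.2.2, fun h hh l hl hl2 hd => ?_⟩
    rw [mem_singleton] at hh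
    subst hh
    rw [sub_zero] at hd
    have h3 : l ∣ p := by exact_mod_cast hd
    have h4 : l = p := (Nat.prime_dvd_prime_iff_eq hl hp.2.2).1 h3
    subst h4
    have hN1 : (4 : ℝ) ≤ N := by exact_mod_cast hN4
    have h5 : (N : ℝ) ≤ 2 * l := by exact_mod_cast hp.2.1
    have h6 : (N : ℝ) ^ (1 / 4 : ℝ) < N / 2 := by
      have h7 : (N : ℝ) ^ (1 / 4 : ℝ) < (N : ℝ) ^ (1 / 2 : ℝ) :=
        Real.rpow_lt_rpow_of_exponent_lt (by linarith) (by norm_num)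
      have h8 : (N : ℝ) ^ (1 / 2 : ℝ) ≤ N / 2 := by
        rw [← Real.sqrt_eq_rpow, Real.sqrt_le_left (by linarith)]
        nlinarith
      linarith
    linarith

theorem pr1 (hL2 : S_L2) (hBC : S_BC) (hOK : S_OK4) (hT : S_TRANS) : ∃ c : ℝ, 0 < c ∧ ∀ᵐ b : Fin 4 → ℝ, ∀ B : ℕ, 1 ≤ B →
    ∀ᶠ N : ℕ in atTop, c * N ≤ (Cn (fun n x => Pr Nat.Prime x ∧ IsP (sec b B n x)) (c * N / Real.log N ^ 2) N : ℝ) := by
  obtain ⟨c, hc, h⟩ := base hT
  refine ⟨c / 4, by positivity, ?_⟩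
  filter_upwards [transfer hL2 hBC hOK (fun _ => Pr Nat.Prime) 1 c hc] with b hb B hB
  filter_upwards [hb B hB, h] with N h1 h2
  rw [cnt_Cn] at h2
  exact h1 h2

theorem pr2 (hL2 : S_L2) (hBC : S_BC) (hOK : S_OK4) (hT : S_TRANS) (hM : S_MAY) (k : ℕ) :
    ∃ (H K : ℕ) (c : ℝ), 0 < c ∧ ∀ᵐ b : Fin 4 → ℝ, ∀ B : ℕ, 1 ≤ B →
    ∀ᶠ N : ℕ in atTop, c * N ≤ (Cn (fun n x => Pr (PP1 k H) x ∧ IsP (sec b B n x)) (c * N / Real.log N ^ K) N : ℝ) := by
  obtain ⟨H, K, c, hc, N0, h⟩ := Pool.Agent.D0H11.TW.part1 hT hM k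
  refine ⟨H, K + 1, c / 4, by positivity, ?_⟩
  filter_upwards [transfer hL2 hBC hOK (fun _ => Pr (PP1 k H)) K c hc] with b hb B hB
  filter_upwards [hb B hB, eventually_ge_atTop N0] with N h1 hN
  have h2 := h N hN
  rw [cnt_Cn] at h2
  exact h1 h2

theorem pr3 (hL2 : S_L2) (hBC : S_BC) (hOK : S_OK4) (hT : S_TRANS) (hC : S_CHN) :
    ∃ (K : ℕ) (δ c : ℝ), 0 < δ ∧ 0 < c ∧ ∀ᵐ b : Fin 4 → ℝ, ∀ B : ℕ, 1 ≤ B →
    ∀ᶠ N : ℕ in atTop, c * N ≤ (Cn (fun n x => Pr (PP2 K ((n : ℝ) ^ δ)) x ∧ IsP (sec b B n x))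
      (c * N / Real.log N ^ 3) N : ℝ) := by
  obtain ⟨K, δ, c, hδ, hc, N0, h⟩ := Pool.Agent.D0H11.TW.part2 hT hC
  refine ⟨K, δ, c / 4, hδ, by positivity, ?_⟩
  filter_upwards [transfer hL2 hBC hOK (fun n => Pr (PP2 K ((n : ℝ) ^ δ))) 2 c hc] with b hb B hB
  filter_upwards [hb B hB, eventually_ge_atTop N0] with N h1 hN
  have h2 := h N hN
  rw [cnt_Cn] at h2
  refine h1 (h2.trans ?_)
  have h3 := Cn_mono (fun _ => Pr (PP2 K ((N : ℝ) ^ δ))) (fun n => Pr (PP2 K ((n : ℝ) ^ δ)))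
    (c * N / Real.log N ^ 2) N (fun n hn x hx => by
      obtain ⟨p, hp, hp2⟩ := hx
      refine ⟨p, ⟨hp.1, hp.2.1, hp.2.2.1, fun q hq hq2 => ?_⟩, hp2⟩
      refine lt_of_le_of_lt ?_ (hp.2.2.2 q hq hq2)
      exact Real.rpow_le_rpow (by positivity) (by exact_mod_cast hn) hδ.le)
  exact_mod_cast h3

theorem pr4 (hL2 : S_L2) (hBC : S_BC) (hOK : S_OK4) (hT : S_TRANS) (hM : S_MAY) (k : ℕ) :
    ∃ (S : Finset ℕ) (K : ℕ) (c : ℝ), S.card = k ∧ (∀ h ∈ S, 1 ≤ h ∧ Even h) ∧ 0 < c ∧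
    ∀ᵐ b : Fin 4 → ℝ, ∀ B : ℕ, 1 ≤ B → ∃ᶠ N : ℕ in atTop, c * N ≤
      (Cn (fun n x => Pr (PP4 S) x ∧ IsP (sec b B n x)) (c * N / Real.log N ^ K) N : ℝ) := by
  obtain ⟨S, K, c, h1, h2, hc, h⟩ := Pool.Agent.D0H11.TW.part4 hT hM k
  refine ⟨S, K + 1, c / 4, h1, h2, by positivity, ?_⟩
  filter_upwards [transfer hL2 hBC hOK (fun _ => Pr (PP4 S)) K c hc] with b hb B hB
  refine (h.and_eventually (hb B hB)).mono fun N hN => ?_
  have h3 := hN.1
  rw [cnt_Cn] at h3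
  exact hN.2 h3

end Pool.Agent.D0H11.GF
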