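import Mathlib

/-!
# Project GF (helper11): statements (generic forms of the four squares); Mathlib only

`c` is a sequence of mean value one (for example `log p` at the primes), `ct c` the centred weight at a real
point. The final theorem needs: for almost every `b ∈ ℝ^d` the sums
`∑ x ∈ R n, w x * ct c (g x + ∑ k, b k * v x k)` are small for all but `N / log ^ A N` of the `n ≤ N`.
Every statement has its proof in the docstring.
-/

set_option autoImplicit false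

namespace Pool.Agent.D0H11.GF

open Finset MeasureTheory Filter

/-- mean value one, with every power of the logarithm (the same as `Pool.Agent.D0H91.UB.Mean1`) -/
def Mean1 (c : ℕ → ℝ) : Prop :=
  ∀ A : ℕ, ∃ C : ℝ, ∀ N : ℕ, 2 ≤ N → |∑ m ∈ Icc 1 N, c m - N| ≤ C * N / Real.log N ^ A

/-- growth at most a power of the logarithm -/
def Gr (E : ℕ) (c : ℕ → ℝ) : Prop := ∀ m : ℕ, |c m| ≤ Real.log (m + 3) ^ E

/-- the centred weight at a real point -/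
noncomputable def ct (c : ℕ → ℝ) (y : ℝ) : ℝ := if 0 ≤ y then c ⌊y⌋₊ - 1 else 0

/-- the cube `[-K, K] ^ d` -/
def bx (d : ℕ) (K : ℝ) : Set (Fin d → ℝ) := Set.Icc (fun _ => -K) (fun _ => K)

/-- 1. INT (30 min): all integrals of `ct c` over intervals inside `[-Y, Y]` are at most `Y / log ^ A Y`.

Proof. `ct c` is `0` on `(-∞, 0)` and constant on `[m, m + 1)`. For `y ≥ 0`, `k = ⌊y⌋₊`:
`∫ u in 0..y, ct c u = (∑ m ∈ range k, (c m - 1)) + (y - k) * (c k - 1)` (induction on `k`). The sum is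
`(c 0 - 1) + (∑ m ∈ Icc 1 (k-1), c m - (k-1))` for `k ≥ 1`. If `k - 1 ≥ √Y` it is at most
`C Y 2^A' / log^A' Y` by `Mean1` with `A' = A + 1`; if `k - 1 < √Y` it is at most `√Y (log (Y+3)^E + 1)`; the other
terms are at most `log (Y + 3) ^ E + 1`. An interval is a difference of two such. -/
def S_INT : Prop := ∀ (c : ℕ → ℝ) (E : ℕ), Mean1 c → Gr E c → ∀ A : ℕ, ∀ᶠ Y : ℝ in atTop,
  ∀ y₁ y₂ : ℝ, -Y ≤ y₁ → y₁ ≤ y₂ → y₂ ≤ Y → |∫ y in y₁..y₂, ct c y| ≤ Y / Real.log Y ^ A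

/-- `F` is bounded by `L` on `[-Y, Y]` and its integrals over the intervals in `[-Y, Y]` are bounded by `e`. -/
def Bd (F : ℝ → ℝ) (Y L e : ℝ) : Prop := Measurable F ∧ 0 < Y ∧ 0 ≤ L ∧ 0 ≤ e ∧
  (∀ y, |y| ≤ Y → |F y| ≤ L) ∧
  ∀ y₁ y₂ : ℝ, -Y ≤ y₁ → y₁ ≤ y₂ → y₂ ≤ Y → |∫ y in y₁..y₂, F y| ≤ e

/-- 2. PAIR2 (60 min): a product of two such functions of two linear forms in two variables.

Proof. The map `M (s, t) = (α₁ s + β₁ t + γ₁, α₂ s + β₂ t + γ₂)` is affine with determinant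
`δ = α₁ β₂ - α₂ β₁ ≠ 0`, so the integral over the square `Q = [-K, K]²` is
`|δ|⁻¹ ∫_{M Q} F u * F u' d(u, u')` (Fubini: `intervalIntegral` to the set integral over `Q`, bounded measurable
integrand; `MeasureTheory.integral_image_eq_integral_abs_det_fderiv_smul` or the linear map versions of
`Measure.addHaar`). `M Q` is compact, convex and contained in `[-Y, Y]²`. By Fubini its integral is
`∫ u in [-Y, Y], F u * (∫_{slice u} F)`; the slice `{u' | (u, u') ∈ M Q}` is a compact convex subset of `[-Y, Y]`,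
that is empty or `[y₁, y₂]`, so the inner integral is at most `e` in absolute value, and the outer one at most
`2 Y L e`. (Alternative: two shears; by symmetry `α₁ ≠ 0`, substitute `u = α₁ s + β₁ t + γ₁` for `s` at fixed `t`, swap,
and substitute `u' = (α₂ / α₁) u + (δ / α₁) t + const` for `t` at fixed `u`.) -/
def S_PAIR2 : Prop := ∀ (F : ℝ → ℝ) (Y L e K : ℝ), Bd F Y L e → 0 < K →
  ∀ α₁ β₁ γ₁ α₂ β₂ γ₂ : ℝ,
    (∀ s t : ℝ, |s| ≤ K → |t| ≤ K → |α₁ * s + β₁ * t + γ₁| ≤ Y ∧ |α₂ * s + β₂ * t + γ₂| ≤ Y) →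
    α₁ * β₂ - α₂ * β₁ ≠ 0 →
    |∫ t in (-K)..K, ∫ s in (-K)..K, F (α₁ * s + β₁ * t + γ₁) * F (α₂ * s + β₂ * t + γ₂)| ≤
      2 * Y * L * e / |α₁ * β₂ - α₂ * β₁|

/-- 3. PAIRD (uses 2, 45 min): the same in `d` variables, if a `2 × 2` minor is not zero.

Proof. Fubini: fix the coordinates other than `i` and `j` (for example `MeasurableEquiv.piEquivPiSubtypeProd` with
`k = i ∨ k = j`, volume preserving; or remove coordinate `i`, then `j`, with `volume_preserving_piFinSuccAbove`); the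
inner double integral is PAIR2 with `α₁ = v i`, `β₁ = v j`, `γ₁ = γ + ` rest. The outer integral is over a cube of
volume `(2 K) ^ (d - 2)`. -/
def S_PAIRD : Prop := ∀ (F : ℝ → ℝ) (Y L e K : ℝ), Bd F Y L e → 0 < K →
  ∀ (d : ℕ) (v v' : Fin d → ℝ) (γ γ' : ℝ),
    (∀ b ∈ bx d K, |γ + ∑ k, b k * v k| ≤ Y ∧ |γ' + ∑ k, b k * v' k| ≤ Y) →
    ∀ i j : Fin d, i ≠ j → v i * v' j - v j * v' i ≠ 0 →
    |∫ b in bx d K, F (γ + ∑ k, b k * v k) * F (γ' + ∑ k, b k * v' k)| ≤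
      (2 * K) ^ (d - 2) * (2 * Y * L * e) / |v i * v' j - v j * v' i|

/-- the data: for each `n` finitely many points `x` with vectors `v n x`, real numbers `g n x`, weights `w n x` -/
structure Fam (d : ℕ) (ι : Type) where
  R : ℕ → Finset ι
  v : ℕ → ι → Fin d → ℝ
  g : ℕ → ι → ℝ
  w : ℕ → ι → ℝ

open Classical in
/-- the conditions: sizes; `∑ #R² ≤ N³ log^E N`; few pairs of points have only small minors -/
structure Ok {d : ℕ} {ι : Type} (X : Fam d ι) (E : ℕ) : Prop where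
  hv : ∀ n, ∀ x ∈ X.R n, ∀ k, |X.v n x k| ≤ E * n
  hg : ∀ n, ∀ x ∈ X.R n, |X.g n x| ≤ E * n
  hw : ∀ n, ∀ x ∈ X.R n, |X.w n x| ≤ Real.log (n + 3) ^ E
  hT : ∀ᶠ N : ℕ in atTop, ∑ n ∈ Icc 1 N, ((X.R n).card : ℝ) ^ 2 ≤ (N : ℝ) ^ 3 * Real.log N ^ E
  hM : ∀ A : ℕ, ∃ D : ℕ, ∀ᶠ N : ℕ in atTop,
    ∑ n ∈ Icc 1 N, ((((X.R n ×ˢ X.R n).filter fun p => ∀ i j : Fin d,
      |X.v n p.1 i * X.v n p.2 j - X.v n p.1 j * X.v n p.2 i| ≤ (N : ℝ) ^ 2 / Real.log N ^ D).card : ℕ) : ℝ) ≤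
      (N : ℝ) ^ 3 / Real.log N ^ A

/-- the sum at `n` -/
noncomputable def Sm {d : ℕ} {ι : Type} (X : Fam d ι) (c : ℕ → ℝ) (n : ℕ) (b : Fin d → ℝ) : ℝ :=
  ∑ x ∈ X.R n, X.w n x * ct c (X.g n x + ∑ k, b k * X.v n x k)

/-- 4. L2 (uses 1, 3; 60 min): the mean square over a cube.

Proof. Expand the square: `∫ b in bx d K, (Sm n b)² = ∑_{x, x' ∈ R n} w w' ∫ F(…) F(…')`, `F = ct c` (finite sums of bounded
measurable functions on a set of finite measure). Put `Y = E (1 + d K) (N + 1)`, so all arguments are at most `Y` in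
absolute value on the cube, `|F| ≤ L = 2 log (Y + 3) ^ E` on `[-Y, Y]`, `e = Y / log ^ A' Y` by INT. A pair all of whose minors
are at most `N² / log^D N` contributes at most `log (N+3)^(2E) (2K)^d L²`; by `hM` (with `A'' = A + 4 E + 1`) these pairs
are few. For the others choose `i`, `j` with a minor larger than `N² / log^D N` (then `i ≠ j`): by PAIRD at most
`log (N+3)^(2E) (2K)^(d-2) 2 Y L e log^D N / N²`, and their number is at most `N³ log^E N` by `hT`; take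
`A' = A + D + 4 E + 2`. All constants (`K`, `d`, `E`) are absorbed by one power of `log N`. -/
def S_L2 : Prop := ∀ (d : ℕ) (ι : Type) (X : Fam d ι) (E : ℕ), Ok X E → ∀ (c : ℕ → ℝ), Mean1 c → Gr E c →
  ∀ (K A : ℕ), 1 ≤ K → ∀ᶠ N : ℕ in atTop,
    ∫ b in bx d K, ∑ n ∈ Icc 1 N, Sm X c n b ^ 2 ≤ (N : ℝ) ^ 3 / Real.log N ^ A

open Classical in
/-- 5. BC (30 min): Borel-Cantelli along the powers of two. Copy of `det_dy` and `bc` in
`Pool/Agent/D0H91/UB/Bc.lean` (there: `ℝ` and the interval `[w0, w0 + 1]`; here `ℝ^d` and the cubes `bx d K`, then the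
countable union over `K`). -/
def S_BC : Prop := ∀ (d : ℕ) (S : ℕ → (Fin d → ℝ) → ℝ), (∀ n, Measurable (S n)) →
  (∀ (n K : ℕ), ∃ M : ℝ, ∀ b ∈ bx d K, |S n b| ≤ M) →
  (∀ (K A : ℕ), 1 ≤ K → ∀ᶠ N : ℕ in atTop,
    ∫ b in bx d K, ∑ n ∈ Icc 1 N, S n b ^ 2 ≤ (N : ℝ) ^ 3 / Real.log N ^ A) →
  ∀ᵐ b : Fin d → ℝ, ∀ A : ℕ, ∀ᶠ N : ℕ in atTop,
    ((((Icc 1 N).filter fun n => (N : ℝ) / Real.log N ^ A < |S n b|).card : ℕ) : ℝ) ≤ (N : ℝ) / Real.log N ^ A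

/-- the points on the sphere `x₀² + x₁² + x₂² + x₃² = n` -/
noncomputable def sph (n : ℕ) : Finset (Fin 4 → ℤ) :=
  (Fintype.piFinset fun _ => Icc (-(n : ℤ)) n).filter fun x => ∑ i, x i ^ 2 = (n : ℤ)

/-- 6. ABCD (45 min): the number of solutions of `a b = c d` in `[-M, M]`.

Proof. If `a b = 0` then `c d = 0`: at most `(4 M + 1)²` such solutions `≤ 100 M²`. Otherwise up to the signs all are
positive, and for `m ≤ M²` there are at most `τ(m)` pairs `(a, b)` and `(c, d)`, so the number is at most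
`8 ∑_{m ≤ M²} τ(m)² ≤ C M² log^3`; or directly: `a = g α`, `c = g γ`, `gcd(α, γ) = 1`, `b = γ k`, `d = α k`, so the number is at
most `∑_{α, γ ≤ M} (M / max(α, γ))² ≤ 2 M² ∑_{α ≤ M} α / α² ≤ 2 M² (1 + log M)`. Any power `E` of the logarithm is fine. -/
def S_ABCD : Prop := ∃ (C : ℝ) (E : ℕ), 0 < C ∧ ∀ M : ℕ, 2 ≤ M →
  ((((Icc (-(M : ℤ)) M ×ˢ Icc (-(M : ℤ)) M) ×ˢ (Icc (-(M : ℤ)) M ×ˢ Icc (-(M : ℤ)) M)).filter
    (fun p : (ℤ × ℤ) × (ℤ × ℤ) => p.1.1 * p.1.2 = p.2.1 * p.2.2)).card : ℝ) ≤ C * (M : ℝ) ^ 2 * Real.log M ^ E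

/-- 7. SQ4 (uses 6; 30 min): `u² - v² + u'² - v'² = e` has at most `C M² log^E M` solutions in `[-M, M]`, uniformly in `e`.

Proof. With `r(f) = #{(u, v) | u² - v² = f}` the number is `∑_f r(f) r(e - f) ≤ ∑_f r(f)²` (Cauchy-Schwarz), and
`∑_f r(f)²` is the number of `(u, v, u', v')` with `(u - v)(u + v) = (u' - v')(u' + v')`, at most the number in ABCD with
`2 M` for `M` (the map is injective). -/
def S_SQ4 : Prop := ∃ (C : ℝ) (E : ℕ), 0 < C ∧ ∀ (M : ℕ) (e : ℤ), 2 ≤ M →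
  ((((Icc (-(M : ℤ)) M ×ˢ Icc (-(M : ℤ)) M) ×ˢ (Icc (-(M : ℤ)) M ×ˢ Icc (-(M : ℤ)) M)).filter
    (fun p : (ℤ × ℤ) × (ℤ × ℤ) => p.1.1 ^ 2 - p.1.2 ^ 2 + (p.2.1 ^ 2 - p.2.2 ^ 2) = e)).card : ℝ) ≤
    C * (M : ℝ) ^ 2 * Real.log M ^ E

/-- 8. SQ2 (30 min): `|u² - v²| ≤ Δ` has at most `C (Δ log M + M)` solutions in `[-M, M]`.

Proof. By symmetry `0 ≤ v ≤ u` (factor 8). For `v = u`: `M + 1`. For `0 ≤ v < u`, `h = u - v ≥ 1`: `h (2 v + h) ≤ Δ` gives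
`h² ≤ Δ` and `2 v ≤ Δ / h`, so at most `Δ / h + 1` values of `v` for each `h ≤ min(M, √Δ)`: in total
`Δ (1 + log M) + min(M, √Δ)`. -/
def S_SQ2 : Prop := ∃ C : ℝ, 0 < C ∧ ∀ M Δ : ℕ, 2 ≤ M →
  (((Icc (-(M : ℤ)) M ×ˢ Icc (-(M : ℤ)) M).filter
    (fun p : ℤ × ℤ => |p.1 ^ 2 - p.2 ^ 2| ≤ (Δ : ℤ))).card : ℝ) ≤ C * (Δ * Real.log M + M)

open Classical in
/-- 9. PR4 (uses 7, 8; 30 min): pairs of points on the same sphere with nearly the same first coordinate squared.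

Proof. `M = √N` (`Nat.sqrt N + 2`). Such a pair `(x, y)` is determined by `(x₀, y₀)` [SQ2: `C (Δ log M + M)`], `(x₁, y₁)`
[`(2 M + 1)²`] and `(x₂, y₂, x₃, y₃)` with `x₂² - y₂² + x₃² - y₃² = e` given [SQ4: `C M² log^E M`]; all coordinates are at most `√N`.
The sum over `n` is the number of all pairs with `|x|² = |y|² ≤ N`. -/
def S_PR4 : Prop := ∃ (C : ℝ) (E : ℕ), 0 < C ∧ ∀ N Δ : ℕ, 2 ≤ N →
  ∑ n ∈ Icc 1 N, ((((sph n ×ˢ sph n).filter fun p => |p.1 0 ^ 2 - p.2 0 ^ 2| ≤ (Δ : ℤ)).card : ℕ) : ℝ) ≤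
    C * (Δ + Real.sqrt N) * (N : ℝ) ^ 2 * Real.log N ^ E

/-- 10. OK4 (uses 9; 40 min): the conditions for `v n x = τ n * x²`, `log ^ (-B) n ≤ τ n ≤ 1`.

Proof. `hv`: `x_k² ≤ n`. `hT`: PR4 with `Δ = N` (all pairs). `hM`: let all minors be at most `Z = N² / log^D N` in absolute value.
Summing `τ² (x₀² y_j² - x_j² y₀²)` over `j` gives `τ² n |x₀² - y₀²| ≤ 4 Z`. For `n ≥ N / log^a N` this gives
`|x₀² - y₀²| ≤ 4 N log^(2 B + a - D) N =: Δ` (`τ n ≥ 1 / log^B N`), so PR4 bounds the number by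
`C (Δ + √N + 1) N² log^E N`; the pairs with `n < N / log^a N` are at most `C N³ log^(E + 1 - 3 a)` by PR4 with
`N / log^a N` for `N` (or simply with `Δ = N / log^a N`). Take `a = A + E + 2`, `D = 2 B + 2 a`. -/
def S_OK4 : Prop := ∀ (B : ℕ) (τ : ℕ → ℝ), (∀ n : ℕ, 0 ≤ τ n ∧ τ n ≤ 1) →
  (∀ n : ℕ, 3 ≤ n → 1 / Real.log n ^ B ≤ τ n) → ∃ E₀ : ℕ, ∀ E, E₀ ≤ E → ∀ g w : ℕ → (Fin 4 → ℤ) → ℝ,
    (∀ n, ∀ x ∈ sph n, |g n x| ≤ E * n) → (∀ n, ∀ x ∈ sph n, |w n x| ≤ Real.log (n + 3) ^ E) →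
    Ok (⟨sph, fun n x k => τ n * (x k : ℝ) ^ 2, g, w⟩ : Fam 4 (Fin 4 → ℤ)) E

end Pool.Agent.D0H11.GF
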