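import Pool.Agent.D0H11.GF.Stm

/-! # Project GF (helper11): the lower bound for the number of points on spheres -/

set_option autoImplicit false

namespace Pool.Agent.D0H11.GF

open Finset Filter

open Classical in
/-- 12. RLOW (40 min): for all but `N / log ^ A N` of the odd `n ≤ N` the sphere has at least `N / log ^ A' N` points.

Proof. `Pool/Agent/W65/FS/Lower.lean`: `n ≤ (Fset n).card * n.divisors.card ^ 2` (`Fset_lower`),
`(Fset n).card ≤ (Sol n).card ≤ (preps n).card` (`Fset_le`, `sol_le`), and `preps n` (primitive representations) is a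
subset of `reps n`, the same set as `sph n`. So `#(sph n) ≥ n / τ(n)²`. The `n < N / log ^ (A+1) N` are few; and
`τ(n)² > log ^ (A+5) N` for at most `(∑_{n ≤ N} τ(n)²) / log ^ (A+5) N ≤ C N log ^ 3 N / log ^ (A+5) N` of the `n ≤ N`
(the second moment of `τ` is in the library: grep `divisors.card ^ 2`, for example near
`Pool/Agent/H510R2` or in `D0H87/TW`). Take `A' = 2 A + 7`. -/
def S_RLOW : Prop := ∀ A : ℕ, ∃ A' : ℕ, ∀ᶠ N : ℕ in atTop,
  ((((Icc 1 N).filter fun n => Odd n ∧ ((sph n).card : ℝ) < (N : ℝ) / Real.log N ^ A').card : ℕ) : ℝ) ≤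
    (N : ℝ) / Real.log N ^ A

end Pool.Agent.D0H11.GF
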