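import Pool.Agent.D0H11.GF.Four

/-! # Project GF (helper11): the transfer -/

set_option autoImplicit false

namespace Pool.Agent.D0H11.GF

open Finset MeasureTheory Filter

/-- the second number: `p - 2 + ⌊(b₀ x² + b₁ y² + b₂ z² + b₃ w²) / log ^ B n⌋` -/
noncomputable def sec (b : Fin 4 → ℝ) (B n : ℕ) (x : Fin 4 → ℤ) : ℤ := pf x - 2 + ⌊qd b x / Real.log n ^ B⌋

/-- `j` is a prime number -/
def IsP (j : ℤ) : Prop := ∃ p : ℕ, p.Prime ∧ (p : ℤ) = j

open Classical in
/-- number of the odd `n ≤ N` with at least `r` points with the property `P n` -/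
noncomputable def Cn (P : ℕ → (Fin 4 → ℤ) → Prop) (r : ℝ) (N : ℕ) : ℕ :=
  ((Icc 1 N).filter fun n => Odd n ∧ r ≤ ((((sph n).filter (P n)).card : ℕ) : ℝ)).card

/-- the main part of the second number -/
noncomputable def gg (n : ℕ) (x : Fin 4 → ℤ) : ℝ := if n = 0 then 0 else ((pf x - 2 : ℤ) : ℝ)

theorem gg_abs (n : ℕ) (x : Fin 4 → ℤ) (hx : x ∈ sph n) : |gg n x| ≤ (9 : ℕ) * n := by
  unfold gg
  split_ifs with h
  · subst h
    simp
  · have h1 := pf_ge hx
    have h2 := pf_le hx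
    have h3 : (1 : ℤ) ≤ n := by
      have : 1 ≤ n := Nat.one_le_iff_ne_zero.2 h
      exact_mod_cast this
    have h4 : |pf x - 2| ≤ 9 * (n : ℤ) := by
      rw [abs_le]
      constructor <;> linarith
    have h5 : ((|pf x - 2| : ℤ) : ℝ) ≤ ((9 * (n : ℤ) : ℤ) : ℝ) := by exact_mod_cast h4
    rw [Int.cast_abs] at h5
    push_cast at h5 ⊢
    exact h5

/-- the argument is a positive real number for large `n` -/
theorem arg_pos (b : Fin 4 → ℝ) (B : ℕ) (hB : 1 ≤ B) : ∃ n₀ : ℕ, 3 ≤ n₀ ∧ ∀ n : ℕ, n₀ ≤ n → ∀ x ∈ sph n,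
    |qd b x / Real.log n ^ B| ≤ n / 4 ∧ tau B n * qd b x = qd b x / Real.log n ^ B ∧
    0 ≤ gg n x + tau B n * qd b x ∧ gg n x + tau B n * qd b x ≤ 8 * n ∧
    (⌊gg n x + tau B n * qd b x⌋₊ : ℤ) = sec b B n x := by
  have h1 : Tendsto (fun n : ℕ => Real.log (n : ℝ)) atTop atTop :=
    Real.tendsto_log_atTop.comp tendsto_natCast_atTop_atTop
  obtain ⟨n₁, h2⟩ := (h1.eventually_ge_atTop (4 * (∑ i, |b i|) + 1)).exists_forall_of_atTop
  refine ⟨max n₁ 8, by omega, fun n hn x hx => ?_⟩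
  have hn1 : n₁ ≤ n := by omega
  have hn8 : 8 ≤ n := by omega
  have h3 := h2 n hn1
  have hs : 0 ≤ ∑ i, |b i| := Finset.sum_nonneg fun i _ => abs_nonneg _
  have hl1 : 1 ≤ Real.log (n : ℝ) := by linarith
  have hn0 : (0 : ℝ) < n := by
    have : 0 < n := by omega
    exact_mod_cast this
  have hn8' : (8 : ℝ) ≤ n := by exact_mod_cast hn8
  have h4 : Real.log (n : ℝ) ≤ Real.log (n : ℝ) ^ B := by
    calc Real.log (n : ℝ) = Real.log (n : ℝ) ^ 1 := (pow_one _).symm
      _ ≤ _ := pow_le_pow_right₀ hl1 hB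
  have h5 : |qd b x / Real.log n ^ B| ≤ n / 4 := by
    rw [abs_div, abs_of_pos (a := Real.log (n : ℝ) ^ B) (by positivity), div_le_iff₀ (by positivity)]
    have h6 := qd_abs hx b
    have h7 : (∑ i, |b i|) * n ≤ n / 4 * Real.log (n : ℝ) ^ B := by
      have : 4 * (∑ i, |b i|) ≤ Real.log (n : ℝ) ^ B := by linarith
      nlinarith
    exact h6.trans h7
  have h6 : tau B n * qd b x = qd b x / Real.log n ^ B := by
    unfold tau
    rw [if_pos (by omega)]
    ring
  have h7 : gg n x = ((pf x - 2 : ℤ) : ℝ) := by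
    unfold gg
    rw [if_neg (by omega)]
  have h8 := abs_le.1 h5
  have h9 : (n : ℝ) ≤ pf x := by exact_mod_cast pf_ge hx
  have h10 : (pf x : ℝ) ≤ 7 * n := by exact_mod_cast pf_le hx
  have h11 : 0 ≤ gg n x + tau B n * qd b x := by
    rw [h6, h7]
    push_cast
    linarith [h8.1]
  refine ⟨h5, h6, h11, ?_, ?_⟩
  · rw [h6, h7]
    push_cast
    linarith [h8.2]
  · rw [Int.natCast_floor_eq_floor h11, h6, h7, Int.floor_intCast_add]
    rfl

open Classical in
theorem det_tr (P : ℕ → (Fin 4 → ℤ) → Prop) (K : ℕ) (c : ℝ) (hc : 0 < c) (b : Fin 4 → ℝ) (B : ℕ) (hB : 1 ≤ B)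
    (h : ∀ᶠ N : ℕ in atTop, ((((Icc 1 N).filter fun n => (N : ℝ) / Real.log N ^ (K + 1) <
        |∑ x ∈ sph n, (if P n x then (1 : ℝ) else 0) * ct th (gg n x + tau B n * qd b x)|).card : ℕ) : ℝ) ≤
          (N : ℝ) / Real.log N ^ (K + 1)) :
    ∀ᶠ N : ℕ in atTop, c * N ≤ Cn P (c * N / Real.log N ^ K) N →
      c / 4 * N ≤ Cn (fun n x => P n x ∧ IsP (sec b B n x)) (c / 4 * N / Real.log N ^ (K + 1)) N := by
  obtain ⟨n₀, hn₀3, hn₀⟩ := arg_pos b B hB
  have hlog : Tendsto (fun n : ℕ => Real.log (n : ℝ)) atTop atTop :=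
    Real.tendsto_log_atTop.comp tendsto_natCast_atTop_atTop
  have hnat : Tendsto (fun n : ℕ => (n : ℝ)) atTop atTop := tendsto_natCast_atTop_atTop
  filter_upwards [h, hlog.eventually_ge_atTop (4 / c + 1), hnat.eventually_ge_atTop (4 / c * n₀ + 8)] with
    N hN hL hNn hS
  obtain ⟨L, hLdef⟩ : ∃ L, L = Real.log (N : ℝ) := ⟨_, rfl⟩
  rw [← hLdef] at hN hL hS ⊢
  have hc4 : 0 < 4 / c := by positivity
  have hL1 : 1 ≤ L := by linarith
  have hL0 : 0 < L := by linarith
  have hLc : 4 ≤ c * L := by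
    have : 4 / c ≤ L := by linarith
    rw [div_le_iff₀ hc] at this
    linarith
  have hN8 : (8 : ℝ) ≤ N := by
    have : 0 ≤ 4 / c * n₀ := by positivity
    linarith
  have hN0 : (0 : ℝ) < N := by linarith
  have hn0N : (n₀ : ℝ) ≤ c / 4 * N := by
    have h1 : 4 / c * n₀ ≤ N := by linarith
    have h2 : (n₀ : ℝ) = c / 4 * (4 / c * n₀) := by field_simp
    rw [h2]
    exact mul_le_mul_of_nonneg_left h1 (by positivity)
  have hLK : 0 < L ^ K := by positivity
  have hLK1 : L ^ (K + 1) = L ^ K * L := pow_succ _ _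
  have hLp : 1 ≤ L ^ K := one_le_pow₀ hL1
  -- the sets
  obtain ⟨S, hSd⟩ : ∃ S, S = (Icc 1 N).filter fun n => Odd n ∧
    c * N / L ^ K ≤ ((((sph n).filter (P n)).card : ℕ) : ℝ) := ⟨_, rfl⟩
  obtain ⟨X, hXd⟩ : ∃ X, X = (Icc 1 N).filter fun n => (N : ℝ) / L ^ (K + 1) <
        |∑ x ∈ sph n, (if P n x then (1 : ℝ) else 0) * ct th (gg n x + tau B n * qd b x)| := ⟨_, rfl⟩
  obtain ⟨T, hTd⟩ : ∃ T, T = (Icc 1 N).filter fun n => Odd n ∧ c / 4 * N / L ^ (K + 1) ≤
    ((((sph n).filter (fun x => P n x ∧ IsP (sec b B n x))).card : ℕ) : ℝ) := ⟨_, rfl⟩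
  have hSc : c * N ≤ (S.card : ℝ) := by
    rw [hSd]
    exact hS
  have hXc : (X.card : ℝ) ≤ c / 4 * N := by
    rw [hXd]
    refine hN.trans ?_
    rw [div_le_iff₀ (by positivity)]
    have h1 : (1 : ℝ) ≤ c / 4 * L ^ (K + 1) := by
      rw [hLK1]
      nlinarith
    nlinarith
  have hsub : S ⊆ T ∪ X ∪ Finset.range n₀ := by
    intro n hn
    by_contra hcon
    rw [mem_union, mem_union, not_or, not_or] at hcon
    obtain ⟨⟨hT, hX⟩, hr⟩ := hcon
    rw [mem_range, not_lt] at hr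
    rw [hSd, mem_filter] at hn
    obtain ⟨hnI, hodd, hcnt⟩ := hn
    rw [hXd, mem_filter, not_and, not_lt] at hX
    have hX' := hX hnI
    apply hT
    rw [hTd, mem_filter]
    refine ⟨hnI, hodd, ?_⟩
    rw [mem_Icc] at hnI
    have hnN : (n : ℝ) ≤ N := by exact_mod_cast hnI.2
    -- the sum
    have e1 : ∑ x ∈ sph n, (if P n x then (1 : ℝ) else 0) * ct th (gg n x + tau B n * qd b x) =
        ∑ x ∈ (sph n).filter (P n), (th ⌊gg n x + tau B n * qd b x⌋₊ - 1) := by
      rw [Finset.sum_filter]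
      refine Finset.sum_congr rfl fun x hx => ?_
      split_ifs with hP
      · rw [one_mul]
        unfold ct
        rw [if_pos (hn₀ n hr x hx).2.2.1]
      · rw [zero_mul]
    rw [e1, Finset.sum_sub_distrib, Finset.sum_const, nsmul_eq_mul, mul_one] at hX'
    have h1 := (abs_le.1 hX').1
    have h2 : ∑ x ∈ (sph n).filter (P n), th ⌊gg n x + tau B n * qd b x⌋₊ ≤
        (((sph n).filter (fun x => P n x ∧ IsP (sec b B n x))).card : ℝ) * (2 * L) := by
      have e2 : (sph n).filter (fun x => P n x ∧ IsP (sec b B n x)) =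
          ((sph n).filter (P n)).filter (fun x => IsP (sec b B n x)) := by
        rw [Finset.filter_filter]
      rw [e2, ← nsmul_eq_mul, ← Finset.sum_const, Finset.sum_filter (fun x => IsP (sec b B n x))]
      refine Finset.sum_le_sum fun x hx => ?_
      rw [mem_filter] at hx
      obtain ⟨-, -, g3, g4, g5⟩ := hn₀ n hr x hx.1
      split_ifs with hp
      · have h3 : th ⌊gg n x + tau B n * qd b x⌋₊ ≤ Real.log ((N : ℝ) ^ 2) := by
          apply th_le
          · refine (Nat.floor_le g3).trans (g4.trans ?_)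
            nlinarith
          · nlinarith
        refine h3.trans ?_
        rw [Real.log_pow, ← hLdef]
        push_cast
        exact le_rfl
      · have h3 : ¬ (⌊gg n x + tau B n * qd b x⌋₊).Prime := by
          intro h4
          exact hp ⟨_, h4, g5⟩
        unfold th
        rw [if_neg h3]
    have h3 : c * N / L ^ K - N / L ^ (K + 1) ≤
        (((sph n).filter (fun x => P n x ∧ IsP (sec b B n x))).card : ℝ) * (2 * L) := by linarith
    have h4 : c / 2 * N / L ^ K ≤ c * N / L ^ K - N / L ^ (K + 1) := by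
      rw [hLK1]
      have e3 : (N : ℝ) / (L ^ K * L) = (N / L ^ K) * (1 / L) := by field_simp
      have e4 : c * N / L ^ K = (N / L ^ K) * c := by ring
      have e5 : c / 2 * N / L ^ K = (N / L ^ K) * (c / 2) := by ring
      rw [e3, e4, e5, ← mul_sub]
      refine mul_le_mul_of_nonneg_left ?_ (by positivity)
      have : 1 / L ≤ c / 2 := by
        rw [div_le_iff₀ hL0]
        linarith
      linarith
    have h5 := h4.trans h3
    rw [hLK1]
    have e6 : c / 4 * N / (L ^ K * L) = (c / 2 * N / L ^ K) / (2 * L) := by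
      field_simp
      ring
    rw [e6, div_le_iff₀ (by positivity)]
    exact h5
  have hcard : (S.card : ℝ) ≤ T.card + X.card + n₀ := by
    have h1 := Finset.card_le_card hsub
    have h2 := Finset.card_union_le (T ∪ X) (Finset.range n₀)
    have h3 := Finset.card_union_le T X
    rw [Finset.card_range] at h2
    have : S.card ≤ T.card + X.card + n₀ := by omega
    exact_mod_cast this
  have hfin : c / 4 * N ≤ (T.card : ℝ) := by nlinarith
  rw [hTd] at hfin
  unfold Cn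
  convert hfin

/-- **Transfer.** -/
theorem transfer (hL2 : S_L2) (hBC : S_BC) (hOK : S_OK4) (P : ℕ → (Fin 4 → ℤ) → Prop) (K : ℕ) (c : ℝ) (hc : 0 < c) :
    ∀ᵐ b : Fin 4 → ℝ, ∀ B : ℕ, 1 ≤ B → ∀ᶠ N : ℕ in atTop, c * N ≤ Cn P (c * N / Real.log N ^ K) N →
      c / 4 * N ≤ Cn (fun n x => P n x ∧ IsP (sec b B n x)) (c / 4 * N / Real.log N ^ (K + 1)) N := by
  classical
  rw [ae_all_iff]
  intro B
  have h := eng4 hL2 hBC hOK B 9 gg (fun n x => if P n x then (1 : ℝ) else 0) (fun n x hx => gg_abs n x hx)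
    (fun n x _ => by
      have h1 : 1 ≤ Real.log ((n : ℝ) + 3) ^ 9 := one_le_pow₀ (one_le_log3 n)
      split_ifs
      · rw [abs_one]
        exact h1
      · rw [abs_zero]
        linarith)
  filter_upwards [h] with b hb hB
  exact det_tr P K c hc b B hB (hb (K + 1))

end Pool.Agent.D0H11.GF
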