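import Pool.Agent.D0H11.TW.Fin2
import Pool.Agent.D0H11.TW.Trans
import Pool.Agent.D0H87.TW.Weyl
import Pool.Agent.D0H87.TW.Four
import Pool.Agent.D0H87.TW.Phi
import Pool.Agent.D0H87.TW.R4
import Pool.Agent.D0H73.TW.Minor
import Pool.Agent.D0H73.TW.ThmA
import Pool.Agent.D0H98.TW.Arc
import Pool.Agent.D0H98.TW.Ker
import Pool.Agent.D0H15.TW.Equi
import Pool.Agent.D0H15.TW.Main
import Pool.Agent.D0H15.TW.Cls
import Pool.Agent.D0H52.TW.Loc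
import Pool.Agent.D0H52.TW.Hen
import Pool.Agent.D0H52.TW.Ser
import Pool.Agent.D0H12.TW.Pen
import Pool.Agent.D0H12.TW.Sv
import Pool.Agent.D0H69.TW.May
import Pool.Agent.D0H69.TW.Chn2
import Pool.Agent.D0H11.GF.Link
import Pool.Agent.D0H11.GF.Fin2
import Pool.Agent.D0H12.GF.Int
import Pool.Agent.D0H12.GF.Paird
import Pool.Agent.D0H12.GF.Bc
import Pool.Agent.D0H70.GF.Pair2
import Pool.Agent.D0H81.GF.L2
import Pool.Agent.D0H81.GF.Sq2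
import Pool.Agent.D0H21.GF.Abcd
import Pool.Agent.D0H21.GF.Sq4
import Pool.Agent.D0H28.GF.Pr4
import Pool.Agent.D0H28.GF.Ok4
import Pool.Agent.D0H87.GF.Rlow

/-! # Project GF (helper11): all modules together -/

set_option autoImplicit false

namespace Pool.Agent.D0H11.GF

open Pool.Agent.D0H11.TW in
theorem tran : S_TRANS :=
  Pool.Agent.D0H11.TW.trans Pool.Agent.D0H15.TW.t_CLS
    (Pool.Agent.D0H73.TW.thma
      (Pool.Agent.D0H73.TW.minor Pool.Agent.D0H87.TW.t_WEYL Pool.Agent.D0H87.TW.t_FOUR)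
      Pool.Agent.D0H98.TW.arc (Pool.Agent.D0H15.TW.t_EQUI Pool.Agent.D0H98.TW.Ker.ker)
      (Pool.Agent.D0H15.TW.t_MAIN Pool.Agent.D0H98.TW.Ker.ker)
      (Pool.Agent.D0H52.TW.ser Pool.Agent.D0H52.TW.loc Pool.Agent.D0H52.TW.hen))
    (Pool.Agent.D0H12.TW.sv Pool.Agent.D0H12.TW.pen) Pool.Agent.D0H87.TW.t_R4 Pool.Agent.D0H87.TW.t_PHI

theorem l2 : S_L2 := Pool.Agent.D0H81.GF.t_L2 Pool.Agent.D0H12.GF.t_INT
  (Pool.Agent.D0H12.GF.t_PAIRD Pool.Agent.D0H70.GF.t_PAIR2)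

theorem bc : S_BC := Pool.Agent.D0H12.GF.t_BC

theorem ok4 : S_OK4 := Pool.Agent.D0H28.GF.t_OK4 (Pool.Agent.D0H28.GF.t_PR4
  (Pool.Agent.D0H21.GF.t_SQ4 Pool.Agent.D0H21.GF.t_ABCD) Pool.Agent.D0H81.GF.t_SQ2)

theorem rlow : S_RLOW := Pool.Agent.D0H87.GF.t_RLOW

end Pool.Agent.D0H11.GF
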