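import Pool.Agent.D0H11.GF.Tr

/-! # Project GF (helper11): two generic forms -/

set_option autoImplicit false

namespace Pool.Agent.D0H11.GF

open Finset MeasureTheory Filter

/-- the first number as a natural number -/
noncomputable def p1 (a : Fin 4 → ℝ) (x : Fin 4 → ℤ) : ℕ := ⌊qd a x⌋₊

/-- the argument of the second number -/
noncomputable def y2 (a b : Fin 4 → ℝ) (B n : ℕ) (x : Fin 4 → ℤ) : ℝ := (p1 a x : ℝ) + tau B n * qd b x

theorem qd_ge {n : ℕ} {x : Fin 4 → ℤ} (h : x ∈ sph n) (a : Fin 4 → ℝ) (m : ℝ) (ha : ∀ i, m ≤ a i) :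
    m * n ≤ qd a x := by
  unfold qd
  have h1 := (mem_sph n x).1 h
  have h2 : (n : ℝ) = ∑ i, (x i : ℝ) ^ 2 := by
    have : ((∑ i, x i ^ 2 : ℤ) : ℝ) = ((n : ℤ) : ℝ) := by rw [h1]
    push_cast at this
    exact this.symm
  rw [h2, Finset.mul_sum]
  exact Finset.sum_le_sum fun i _ => mul_le_mul_of_nonneg_right (ha i) (sq_nonneg _)

theorem th_pos_bounds (p n : ℕ) (hp : p.Prime) (u v : ℝ) (hu : 0 < u) (hn : 0 < n) (h1 : u * n ≤ p)
    (h2 : (p : ℝ) ≤ v * n) : Real.log u + Real.log n ≤ th p ∧ th p ≤ Real.log v + Real.log n := by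
  have hn0 : (0 : ℝ) < n := by exact_mod_cast hn
  have hp0 : (0 : ℝ) < p := by exact_mod_cast hp.pos
  have hv : 0 < v := by
    by_contra hc
    rw [not_lt] at hc
    nlinarith
  unfold th
  rw [if_pos hp, ← Real.log_mul hu.ne' hn0.ne', ← Real.log_mul hv.ne' hn0.ne']
  exact ⟨Real.log_le_log (by positivity) h1, Real.log_le_log hp0 h2⟩

/-- the two numbers for large `n` -/
theorem logs (a b : Fin 4 → ℝ) (ha : ∀ i, 0 < a i) (B : ℕ) (hB : 1 ≤ B) (η : ℝ) (hη : 0 < η) :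
    ∃ n₀ : ℕ, 3 ≤ n₀ ∧ ∀ n : ℕ, n₀ ≤ n → ∀ x ∈ sph n, 0 ≤ qd a x ∧ 0 ≤ y2 a b B n x ∧
      (p1 a x : ℤ) = ⌊qd a x⌋ ∧ (⌊y2 a b B n x⌋₊ : ℤ) = ⌊qd a x⌋ + ⌊qd b x / Real.log n ^ B⌋ ∧
      ((p1 a x).Prime → (⌊y2 a b B n x⌋₊).Prime →
        (1 - η) * Real.log n ^ 2 ≤ th (p1 a x) * th ⌊y2 a b B n x⌋₊ ∧
        th (p1 a x) * th ⌊y2 a b B n x⌋₊ ≤ (1 + η) * Real.log n ^ 2) := by
  obtain ⟨m, hm0, hm⟩ : ∃ m : ℝ, 0 < m ∧ ∀ i, m ≤ a i := by
    obtain ⟨j, -, hj⟩ := Finset.exists_min_image (Finset.univ : Finset (Fin 4)) a ⟨0, Finset.mem_univ 0⟩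
    exact ⟨a j, ha j, fun i => hj i (Finset.mem_univ i)⟩
  obtain ⟨V, hV⟩ : ∃ V : ℝ, V = ∑ i, |a i| := ⟨_, rfl⟩
  obtain ⟨W, hW⟩ : ∃ W : ℝ, W = ∑ i, |b i| := ⟨_, rfl⟩
  have hV0 : 0 ≤ V := by
    rw [hV]
    exact Finset.sum_nonneg fun i _ => abs_nonneg _
  have hW0 : 0 ≤ W := by
    rw [hW]
    exact Finset.sum_nonneg fun i _ => abs_nonneg _
  obtain ⟨κ, hκ⟩ : ∃ κ : ℝ, κ = |Real.log (m / 4)| + |Real.log (V + m)| := ⟨_, rfl⟩
  have hκ0 : 0 ≤ κ := by
    rw [hκ]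
    positivity
  have hlog : Tendsto (fun n : ℕ => Real.log (n : ℝ)) atTop atTop :=
    Real.tendsto_log_atTop.comp tendsto_natCast_atTop_atTop
  have hnat : Tendsto (fun n : ℕ => (n : ℝ)) atTop atTop := tendsto_natCast_atTop_atTop
  obtain ⟨n₁, h1⟩ := ((hlog.eventually_ge_atTop (8 * W / m + κ + 3 * κ / η + 1)).and
    (hnat.eventually_ge_atTop (8 / m))).exists_forall_of_atTop
  refine ⟨max n₁ 8, by omega, fun n hn x hx => ?_⟩
  obtain ⟨hL, hnm⟩ := h1 n (by omega)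
  obtain ⟨L, hLd⟩ : ∃ L, L = Real.log (n : ℝ) := ⟨_, rfl⟩
  rw [← hLd] at hL ⊢
  have hn0 : 0 < n := by omega
  have hn0' : (0 : ℝ) < n := by exact_mod_cast hn0
  have hmn : 8 ≤ m * n := by
    rw [div_le_iff₀ hm0] at hnm
    linarith
  have e1 : 0 ≤ 8 * W / m := by positivity
  have e2 : 0 ≤ 3 * κ / η := by positivity
  have hL1 : 1 ≤ L := by linarith
  have hLκ : κ ≤ L := by linarith
  have hLη : 3 * κ ≤ η * L := by
    have : 3 * κ / η ≤ L := by linarith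
    rw [div_le_iff₀ hη] at this
    linarith
  have hLW : 8 * W ≤ m * L := by
    have : 8 * W / m ≤ L := by linarith
    rw [div_le_iff₀ hm0] at this
    linarith
  have h4 : L ≤ L ^ B := by
    calc L = L ^ 1 := (pow_one _).symm
      _ ≤ _ := pow_le_pow_right₀ hL1 hB
  have hqa := qd_ge hx a m hm
  have hqa2 : qd a x ≤ V * n := by
    have := qd_abs hx a
    rw [← hV] at this
    exact (le_abs_self _).trans this
  have hqb : |qd b x / L ^ B| ≤ m / 8 * n := by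
    rw [abs_div, abs_of_pos (a := L ^ B) (by positivity), div_le_iff₀ (by positivity)]
    have h6 := qd_abs hx b
    rw [← hW] at h6
    have h7 : 8 * W ≤ m * L ^ B := hLW.trans (mul_le_mul_of_nonneg_left h4 hm0.le)
    have h8 : W * n ≤ m / 8 * n * L ^ B := by nlinarith
    exact h6.trans h8
  have hq0 : 0 ≤ qd a x := by nlinarith
  have htau : tau B n * qd b x = qd b x / L ^ B := by
    unfold tau
    rw [if_pos (by omega), ← hLd]
    ring
  have hp1 : (p1 a x : ℝ) ≤ qd a x := Nat.floor_le hq0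
  have hp1' : qd a x < p1 a x + 1 := Nat.lt_floor_add_one _
  have hb2 := abs_le.1 hqb
  have hy0 : m / 2 * n ≤ y2 a b B n x := by
    unfold y2
    rw [htau]
    linarith [hb2.1]
  have hy1 : y2 a b B n x ≤ (V + m) * n := by
    unfold y2
    rw [htau]
    nlinarith [hb2.2]
  have hy00 : 0 ≤ y2 a b B n x := by
    have : 0 ≤ m / 2 * n := by positivity
    linarith
  have hp2 : (⌊y2 a b B n x⌋₊ : ℝ) ≤ y2 a b B n x := Nat.floor_le hy00
  have hp2' : y2 a b B n x < ⌊y2 a b B n x⌋₊ + 1 := Nat.lt_floor_add_one _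
  have hf1 : (p1 a x : ℤ) = ⌊qd a x⌋ := Int.natCast_floor_eq_floor hq0
  refine ⟨hq0, hy00, hf1, ?_, fun hP1 hP2 => ?_⟩
  · rw [Int.natCast_floor_eq_floor hy00]
    unfold y2
    rw [htau, ← hf1, ← Int.floor_natCast_add]
  · obtain ⟨u1, u2⟩ := th_pos_bounds _ n hP1 (m / 4) (V + m) (by positivity) hn0 (by linarith) (by nlinarith)
    obtain ⟨v1, v2⟩ := th_pos_bounds _ n hP2 (m / 4) (V + m) (by positivity) hn0 (by linarith) (by linarith)
    rw [← hLd] at u1 u2 v1 v2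
    have k1 : -κ ≤ Real.log (m / 4) := by
      have := neg_abs_le (Real.log (m / 4))
      have h9 := abs_nonneg (Real.log (V + m))
      linarith
    have k2 : Real.log (V + m) ≤ κ := by
      have := le_abs_self (Real.log (V + m))
      have h9 := abs_nonneg (Real.log (m / 4))
      linarith
    have w1 : L - κ ≤ th (p1 a x) := by linarith
    have w2 : th (p1 a x) ≤ L + κ := by linarith
    have w3 : L - κ ≤ th ⌊y2 a b B n x⌋₊ := by linarith
    have w4 : th ⌊y2 a b B n x⌋₊ ≤ L + κ := by linarith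
    have h11 : κ * κ ≤ κ * L := mul_le_mul_of_nonneg_left hLκ hκ0
    have h12 : 3 * κ * L ≤ η * L * L := mul_le_mul_of_nonneg_right hLη (by linarith)
    have h13 : 0 ≤ κ * L := mul_nonneg hκ0 (by linarith)
    have h14 : 0 ≤ κ * κ := mul_nonneg hκ0 hκ0
    constructor
    · have h10 : (L - κ) * (L - κ) ≤ th (p1 a x) * th ⌊y2 a b B n x⌋₊ :=
        mul_le_mul w1 w3 (by linarith) (th_nonneg _)
      have e5 : (L - κ) * (L - κ) = L * L - 2 * (κ * L) + κ * κ := by ring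
      have e6 : (1 - η) * L ^ 2 = L * L - η * L * L := by ring
      rw [e6]
      rw [e5] at h10
      linarith
    · have h10 : th (p1 a x) * th ⌊y2 a b B n x⌋₊ ≤ (L + κ) * (L + κ) :=
        mul_le_mul w2 w4 (th_nonneg _) (by linarith)
      have e5 : (L + κ) * (L + κ) = L * L + 2 * (κ * L) + κ * κ := by ring
      have e6 : (1 + η) * L ^ 2 = L * L + η * L * L := by ring
      rw [e6]
      rw [e5] at h10
      linarith

open Classical in
/-- the number of the points for which both numbers are prime -/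
noncomputable def C2 (a b : Fin 4 → ℝ) (B n : ℕ) : ℕ :=
  ((sph n).filter fun x => IsP ⌊qd a x⌋ ∧ IsP (⌊qd a x⌋ + ⌊qd b x / Real.log n ^ B⌋)).card

/-- from the sums to the number of points -/
theorem pointwise (a b : Fin 4 → ℝ) (ha : ∀ i, 0 < a i) (B : ℕ) (hB : 1 ≤ B) (ε : ℝ) (hε : 0 < ε) (hε1 : ε ≤ 1) :
    ∃ n₀ : ℕ, 3 ≤ n₀ ∧ ∀ n : ℕ, n₀ ≤ n → ∀ δ : ℝ,
      |∑ x ∈ sph n, (1 : ℝ) * ct th (0 + tau 0 n * qd a x)| ≤ δ →
      |∑ x ∈ sph n, th (p1 a x) * ct th (p1 a x + tau B n * qd b x)| ≤ δ →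
      8 * δ ≤ ε * (sph n).card → |C2 a b B n * Real.log n ^ 2 - (sph n).card| ≤ ε * (sph n).card := by
  classical
  obtain ⟨n₀, hn3, h0⟩ := logs a b ha B hB (ε / 8) (by positivity)
  refine ⟨n₀, hn3, fun n hn δ h1 h2 h3 => ?_⟩
  obtain ⟨L, hLd⟩ : ∃ L, L = Real.log (n : ℝ) := ⟨_, rfl⟩
  obtain ⟨r, hr⟩ : ∃ r : ℝ, r = (sph n).card := ⟨_, rfl⟩
  have ht : tau 0 n = 1 := by
    unfold tau
    rw [if_pos (by omega), pow_zero, div_one]
  have e1 : ∑ x ∈ sph n, (1 : ℝ) * ct th (0 + tau 0 n * qd a x) = ∑ x ∈ sph n, th (p1 a x) - r := by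
    rw [hr, ← nsmul_one, ← Finset.sum_const, ← Finset.sum_sub_distrib]
    refine Finset.sum_congr rfl fun x hx => ?_
    rw [ht, one_mul, zero_add, one_mul]
    unfold ct
    rw [if_pos (h0 n hn x hx).1]
    rfl
  obtain ⟨T, hT⟩ : ∃ T : ℝ, T = ∑ x ∈ sph n, th (p1 a x) * th ⌊y2 a b B n x⌋₊ := ⟨_, rfl⟩
  have e2 : ∑ x ∈ sph n, th (p1 a x) * ct th (p1 a x + tau B n * qd b x) = T - ∑ x ∈ sph n, th (p1 a x) := by
    rw [hT, ← Finset.sum_sub_distrib]
    refine Finset.sum_congr rfl fun x hx => ?_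
    unfold ct
    have := (h0 n hn x hx).2.1
    unfold y2 at this ⊢
    rw [if_pos this]
    ring
  rw [e1] at h1
  rw [e2] at h2
  rw [← hr] at h3 ⊢
  rw [← hLd]
  have h1' := abs_le.1 h1
  have h2' := abs_le.1 h2
  have hr0 : 0 ≤ r := by
    rw [hr]
    positivity
  -- the sum and the number
  obtain ⟨G, hG⟩ : ∃ G, G = (sph n).filter fun x => IsP ⌊qd a x⌋ ∧ IsP (⌊qd a x⌋ + ⌊qd b x / Real.log n ^ B⌋) := ⟨_, rfl⟩
  have hGc : (C2 a b B n : ℝ) = G.card := by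
    unfold C2
    rw [hG]
  have hTG : T = ∑ x ∈ G, th (p1 a x) * th ⌊y2 a b B n x⌋₊ := by
    rw [hT, hG]
    symm
    apply Finset.sum_subset (Finset.filter_subset _ _)
    intro x hx hx2
    rw [mem_filter, not_and] at hx2
    have h4 := hx2 hx
    obtain ⟨-, -, g3, g4, -⟩ := h0 n hn x hx
    by_cases q1 : (p1 a x).Prime
    · by_cases q2 : (⌊y2 a b B n x⌋₊).Prime
      · exact absurd ⟨⟨_, q1, g3⟩, ⟨_, q2, g4⟩⟩ h4
      · have : th ⌊y2 a b B n x⌋₊ = 0 := by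
          unfold th
          rw [if_neg q2]
        rw [this, mul_zero]
    · have : th (p1 a x) = 0 := by
        unfold th
        rw [if_neg q1]
      rw [this, zero_mul]
  have hGm : ∀ x ∈ G, (1 - ε / 8) * L ^ 2 ≤ th (p1 a x) * th ⌊y2 a b B n x⌋₊ ∧
      th (p1 a x) * th ⌊y2 a b B n x⌋₊ ≤ (1 + ε / 8) * L ^ 2 := by
    intro x hx
    rw [hG, mem_filter] at hx
    obtain ⟨hx1, ⟨q, hq, hq'⟩, ⟨q2, hq2, hq2'⟩⟩ := hx
    obtain ⟨-, -, g3, g4, g5⟩ := h0 n hn x hx1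
    have k1 : p1 a x = q := by
      have : (p1 a x : ℤ) = (q : ℤ) := by rw [g3, hq']
      exact_mod_cast this
    have k2 : ⌊y2 a b B n x⌋₊ = q2 := by
      have : (⌊y2 a b B n x⌋₊ : ℤ) = (q2 : ℤ) := by rw [g4, hq2']
      exact_mod_cast this
    rw [← hLd] at g5
    exact g5 (by rw [k1]; exact hq) (by rw [k2]; exact hq2)
  have hlo : (G.card : ℝ) * ((1 - ε / 8) * L ^ 2) ≤ T := by
    rw [hTG, ← nsmul_eq_mul]
    exact Finset.card_nsmul_le_sum _ _ _ fun x hx => (hGm x hx).1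
  have hup : T ≤ (G.card : ℝ) * ((1 + ε / 8) * L ^ 2) := by
    rw [hTG, ← nsmul_eq_mul]
    exact Finset.sum_le_card_nsmul _ _ _ fun x hx => (hGm x hx).2
  rw [hGc]
  obtain ⟨Z, hZ⟩ : ∃ Z : ℝ, Z = (G.card : ℝ) * L ^ 2 := ⟨_, rfl⟩
  have hZ0 : 0 ≤ Z := by
    rw [hZ]
    positivity
  rw [← hZ]
  have hlo' : (1 - ε / 8) * Z ≤ T := by
    rw [hZ]
    linarith
  have hup' : T ≤ (1 + ε / 8) * Z := by
    rw [hZ]
    linarith
  have hT1 : T ≤ (1 + ε / 4) * r := by linarith [h1'.2, h2'.2]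
  have hT2 : (1 - ε / 4) * r ≤ T := by linarith [h1'.1, h2'.1]
  rw [abs_le]
  constructor
  · by_contra hc
    rw [not_le] at hc
    have h5 : Z < (1 - ε) * r := by linarith
    have h6 : (1 + ε / 8) * Z ≤ (1 + ε / 8) * ((1 - ε) * r) := mul_le_mul_of_nonneg_left h5.le (by linarith)
    have h7 : (1 + ε / 8) * ((1 - ε) * r) ≤ (1 - ε / 4) * r - ε / 8 * r := by nlinarith [mul_nonneg hε.le hr0, mul_nonneg (mul_nonneg hε.le hε.le) hr0]
    have h8 : ε / 8 * r ≤ 0 := by linarith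
    have h9 : r = 0 := by
      by_contra h10
      have : 0 < r := lt_of_le_of_ne hr0 (Ne.symm h10)
      have : 0 < ε / 8 * r := by positivity
      linarith
    rw [h9] at h5
    linarith
  · by_contra hc
    rw [not_le] at hc
    have h5 : (1 + ε) * r < Z := by linarith
    have h6 : (1 - ε / 8) * ((1 + ε) * r) ≤ (1 - ε / 8) * Z := mul_le_mul_of_nonneg_left h5.le (by linarith)
    have h7 : (1 + ε / 4) * r + ε / 8 * r ≤ (1 - ε / 8) * ((1 + ε) * r) := by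
      nlinarith [mul_nonneg hε.le hr0, mul_nonneg (mul_nonneg hε.le (sub_nonneg.2 hε1)) hr0]
    have h8 : ε / 8 * r ≤ 0 := by linarith
    have h9 : r = 0 := by
      by_contra h10
      have : 0 < r := lt_of_le_of_ne hr0 (Ne.symm h10)
      have : 0 < ε / 8 * r := by positivity
      linarith
    rw [h9, mul_zero] at hT1
    rw [h9, mul_zero] at hT2
    have h10 : T = 0 := le_antisymm hT1 hT2
    rw [h9] at h5
    rw [h10] at hlo'
    have h11 : 0 < (1 - ε / 8) * Z := by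
      apply mul_pos (by linarith)
      linarith
    linarith

end Pool.Agent.D0H11.GF
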